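import Mathlib

set_option autoImplicit false
set_option linter.unusedSectionVars false
set_option linter.unusedVariables false

open Filter Topology Set Metric
open scoped NNReal ENNReal

namespace Pool.Agent.Results.MP_d136d9_an.UniversalWsc

universe u v

/-! ### Lipschitz functions and finitely supported functionals -/

section Core

variable {𝕜 : Type*} [RCLike 𝕜] {M : Type*} [MetricSpace M]

/-- `f` is Lipschitz with constant `C`. -/
def IsLip (C : ℝ) (f : M → 𝕜) : Prop := ∀ p q, ‖f p - f q‖ ≤ C * dist p q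

/-- The pairing of a finitely supported function with a function. -/
noncomputable def pr (c : M →₀ 𝕜) (f : M → 𝕜) : 𝕜 := ∑ p ∈ c.support, c p * f p

lemma pr_add (c : M →₀ 𝕜) (f g : M → 𝕜) : pr c (fun p => f p + g p) = pr c f + pr c g := by
  simp only [pr, mul_add, Finset.sum_add_distrib]

lemma pr_sub (c : M →₀ 𝕜) (f g : M → 𝕜) : pr c (fun p => f p - g p) = pr c f - pr c g := by
  simp only [pr, mul_sub, Finset.sum_sub_distrib]

lemma pr_const_mul (c : M →₀ 𝕜) (a : 𝕜) (f : M → 𝕜) :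
    pr c (fun p => a * f p) = a * pr c f := by
  simp only [pr, Finset.mul_sum]
  refine Finset.sum_congr rfl fun p _ => by ring

lemma pr_congr (c : M →₀ 𝕜) {f g : M → 𝕜} (h : ∀ p ∈ c.support, f p = g p) :
    pr c f = pr c g :=
  Finset.sum_congr rfl fun p hp => by rw [h p hp]

lemma IsLip.mono {C C' : ℝ} {f : M → 𝕜} (h : IsLip C f) (hC : C ≤ C') : IsLip C' f :=
  fun p q => (h p q).trans (mul_le_mul_of_nonneg_right hC dist_nonneg)

lemma IsLip.const_mul {C D : ℝ} {f : M → 𝕜} (h : IsLip C f) {a : 𝕜} (ha : ‖a‖ ≤ D)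
    (hC : 0 ≤ C) : IsLip (D * C) (fun p => a * f p) := by
  intro p q
  rw [← mul_sub, norm_mul, mul_assoc]
  exact mul_le_mul ha (h p q) (norm_nonneg _) ((norm_nonneg _).trans ha)

lemma IsLip.sub {C D : ℝ} {f g : M → 𝕜} (h : IsLip C f) (h' : IsLip D g) :
    IsLip (C + D) (fun p => f p - g p) := by
  intro p q
  have e : f p - g p - (f q - g q) = (f p - f q) - (g p - g q) := by ring
  rw [e, add_mul]
  exact (norm_sub_le _ _).trans (add_le_add (h p q) (h' p q))

/-- A `C`-Lipschitz function vanishing on a nonempty set is bounded by `C` times the distance. -/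
lemma IsLip.norm_le_infDist {C : ℝ} {f : M → 𝕜} (h : IsLip C f) (hC : 0 ≤ C) {A : Set M}
    (hA : A.Nonempty) (hf : ∀ a ∈ A, f a = 0) (p : M) : ‖f p‖ ≤ C * infDist p A := by
  rcases hC.eq_or_lt with rfl | hC
  · obtain ⟨a, ha⟩ := hA
    have := h p a
    rw [hf a ha, sub_zero] at this
    simpa using this
  · have h1 : ‖f p‖ / C ≤ infDist p A := by
      rw [le_infDist hA]
      intro a ha
      rw [div_le_iff₀ hC]
      have := h p a
      rw [hf a ha, sub_zero] at this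
      linarith
    rw [div_le_iff₀ hC] at h1
    linarith

/-- Extension of Lipschitz functions (with twice the constant). -/
lemma exists_ext {S : Set M} {C : ℝ} (hC : 0 ≤ C) {f : M → 𝕜}
    (hf : ∀ p ∈ S, ∀ q ∈ S, ‖f p - f q‖ ≤ C * dist p q) :
    ∃ g : M → 𝕜, IsLip (2 * C) g ∧ ∀ p ∈ S, g p = f p := by
  have hre : LipschitzOnWith ⟨C, hC⟩ (fun p => RCLike.re (f p)) S := by
    apply LipschitzOnWith.of_dist_le_mul
    intro p hp q hq
    rw [Real.dist_eq, ← map_sub]
    exact (RCLike.abs_re_le_norm _).trans (hf p hp q hq)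
  have him : LipschitzOnWith ⟨C, hC⟩ (fun p => RCLike.im (f p)) S := by
    apply LipschitzOnWith.of_dist_le_mul
    intro p hp q hq
    rw [Real.dist_eq, ← map_sub]
    exact (RCLike.abs_im_le_norm _).trans (hf p hp q hq)
  obtain ⟨g₁, hg₁, e₁⟩ := hre.extend_real
  obtain ⟨g₂, hg₂, e₂⟩ := him.extend_real
  refine ⟨fun p => (g₁ p : 𝕜) + (g₂ p : 𝕜) * RCLike.I, ?_, ?_⟩
  · intro p q
    have h1 : |g₁ p - g₁ q| ≤ C * dist p q := by
      have := hg₁.dist_le_mul p q
      rwa [Real.dist_eq] at this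
    have h2 : |g₂ p - g₂ q| ≤ C * dist p q := by
      have := hg₂.dist_le_mul p q
      rwa [Real.dist_eq] at this
    have e : (g₁ p : 𝕜) + (g₂ p : 𝕜) * RCLike.I - ((g₁ q : 𝕜) + (g₂ q : 𝕜) * RCLike.I)
        = ((g₁ p - g₁ q : ℝ) : 𝕜) + ((g₂ p - g₂ q : ℝ) : 𝕜) * RCLike.I := by
      push_cast
      ring
    rw [e]
    refine (norm_add_le _ _).trans ?_
    rw [norm_mul, RCLike.norm_ofReal, RCLike.norm_ofReal]
    have h3 : ‖(RCLike.I : 𝕜)‖ ≤ 1 := by
      rcases RCLike.I_mul_I_ax (K := 𝕜) with h | h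
      · rw [h]; simp
      · have : ‖(RCLike.I : 𝕜)‖ * ‖(RCLike.I : 𝕜)‖ = 1 := by
          rw [← norm_mul, h]; simp
        nlinarith [norm_nonneg (RCLike.I : 𝕜)]
    have h4 : |g₂ p - g₂ q| * ‖(RCLike.I : 𝕜)‖ ≤ |g₂ p - g₂ q| :=
      mul_le_of_le_one_right (abs_nonneg _) h3
    linarith
  · intro p hp
    have h1 : g₁ p = RCLike.re (f p) := (e₁ hp).symm
    have h2 : g₂ p = RCLike.im (f p) := (e₂ hp).symm
    simp only [h1, h2]
    exact RCLike.re_add_im (f p)

/-! ### Cut-off functions -/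

/-- `cut o s` vanishes on the ball of radius `s` and is one outside the ball of radius `2 s`. -/
noncomputable def cut (o : M) (s : ℝ) (p : M) : ℝ := min 1 (max 0 (dist p o / s - 1))

lemma cut_nonneg (o : M) (s : ℝ) (p : M) : 0 ≤ cut o s p :=
  le_min zero_le_one (le_max_left _ _)

lemma cut_le_one (o : M) (s : ℝ) (p : M) : cut o s p ≤ 1 := min_le_left _ _

lemma cut_eq_zero {o : M} {s : ℝ} (hs : 0 < s) {p : M} (h : dist p o ≤ s) : cut o s p = 0 := by
  have h1 : dist p o / s - 1 ≤ 0 := by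
    rw [sub_nonpos, div_le_one hs]; exact h
  rw [cut, max_eq_left h1, min_eq_right zero_le_one]

lemma cut_eq_one {o : M} {s : ℝ} (hs : 0 < s) {p : M} (h : 2 * s ≤ dist p o) :
    cut o s p = 1 := by
  have h1 : 1 ≤ dist p o / s - 1 := by
    have : 2 ≤ dist p o / s := by rw [le_div_iff₀ hs]; exact h
    linarith
  rw [cut, min_eq_left (h1.trans (le_max_right _ _))]

lemma abs_cut_sub_le {o : M} {s : ℝ} (hs : 0 < s) (p q : M) :
    |cut o s p - cut o s q| ≤ dist p q / s := by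
  have h1 : |cut o s p - cut o s q| ≤
      |max 0 (dist p o / s - 1) - max 0 (dist q o / s - 1)| := by
    have := abs_min_sub_min_le_max (1 : ℝ) (max 0 (dist p o / s - 1)) 1
      (max 0 (dist q o / s - 1))
    simpa [cut] using this
  have h2 : |max 0 (dist p o / s - 1) - max 0 (dist q o / s - 1)| ≤
      |(dist p o / s - 1) - (dist q o / s - 1)| := by
    have := abs_max_sub_max_le_max (0 : ℝ) (dist p o / s - 1) 0 (dist q o / s - 1)
    simpa using this
  have h3 : |(dist p o / s - 1) - (dist q o / s - 1)| ≤ dist p q / s := by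
    have e : (dist p o / s - 1) - (dist q o / s - 1) = (dist p o - dist q o) / s := by ring
    rw [e, abs_div, abs_of_pos hs]
    gcongr
    exact abs_dist_sub_le _ _ _
  exact h1.trans (h2.trans h3)

/-- A function with values in `[0,1]`, which is constant outside the ball of radius `2 s` and
is `1/s`-Lipschitz, times a `C`-Lipschitz function vanishing at `o`, is `3 C`-Lipschitz. -/
lemma isLip_mul_aux {o : M} {s : ℝ} (hs : 0 < s) {χ : M → ℝ} (h0 : ∀ p, 0 ≤ χ p)
    (h1 : ∀ p, χ p ≤ 1) (hL : ∀ p q, |χ p - χ q| ≤ dist p q / s)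
    (hc : ∀ p q, 2 * s ≤ dist p o → 2 * s ≤ dist q o → χ p = χ q)
    {C : ℝ} (hC : 0 ≤ C) {f : M → 𝕜} (hf : IsLip C f) (hfo : f o = 0) :
    IsLip (3 * C) (fun p => (χ p : 𝕜) * f p) := by
  have key : ∀ p q, dist p o ≤ dist q o →
      ‖(χ p : 𝕜) * f p - (χ q : 𝕜) * f q‖ ≤ 3 * C * dist p q := by
    intro p q hpq
    have e : (χ p : 𝕜) * f p - (χ q : 𝕜) * f q =
        (χ q : 𝕜) * (f p - f q) + ((χ p - χ q : ℝ) : 𝕜) * f p := by
      push_cast
      ring
    rw [e]
    refine (norm_add_le _ _).trans ?_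
    rw [norm_mul, norm_mul, RCLike.norm_ofReal, RCLike.norm_ofReal, abs_of_nonneg (h0 q)]
    have hd : 0 ≤ dist p q := dist_nonneg
    have a1 : χ q * ‖f p - f q‖ ≤ C * dist p q := by
      have := mul_le_mul (h1 q) (hf p q) (norm_nonneg _) zero_le_one
      linarith
    have a2 : |χ p - χ q| * ‖f p‖ ≤ 2 * C * dist p q := by
      by_cases hp : 2 * s ≤ dist p o
      · rw [hc p q hp (hp.trans hpq), sub_self, abs_zero, zero_mul]
        positivity
      · push Not at hp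
        have b1 : ‖f p‖ ≤ C * dist p o := by
          have := hf p o
          rwa [hfo, sub_zero] at this
        have b2 : ‖f p‖ ≤ C * (2 * s) :=
          b1.trans (mul_le_mul_of_nonneg_left hp.le hC)
        have b3 := mul_le_mul (hL p q) b2 (norm_nonneg _) (by positivity)
        have b4 : dist p q / s * (C * (2 * s)) = 2 * C * dist p q := by
          field_simp
        linarith
    linarith
  intro p q
  rcases le_total (dist p o) (dist q o) with h | h
  · exact key p q h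
  · have := key q p h
    rw [norm_sub_rev, dist_comm q p] at this
    exact this

lemma IsLip.cut_mul {o : M} {s : ℝ} (hs : 0 < s) {C : ℝ} (hC : 0 ≤ C) {f : M → 𝕜}
    (hf : IsLip C f) (hfo : f o = 0) : IsLip (3 * C) (fun p => (cut o s p : 𝕜) * f p) :=
  isLip_mul_aux hs (cut_nonneg o s) (cut_le_one o s) (abs_cut_sub_le hs)
    (fun p q hp hq => by rw [cut_eq_one hs hp, cut_eq_one hs hq]) hC hf hfo

lemma IsLip.one_sub_cut_mul {o : M} {s : ℝ} (hs : 0 < s) {C : ℝ} (hC : 0 ≤ C) {f : M → 𝕜}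
    (hf : IsLip C f) (hfo : f o = 0) :
    IsLip (3 * C) (fun p => ((1 - cut o s p : ℝ) : 𝕜) * f p) :=
  isLip_mul_aux hs (fun p => sub_nonneg.2 (cut_le_one o s p))
    (fun p => by linarith [cut_nonneg o s p])
    (fun p q => by
      have e : (1 - cut o s p) - (1 - cut o s q) = -(cut o s p - cut o s q) := by ring
      rw [e, abs_neg]
      exact abs_cut_sub_le hs p q)
    (fun p q hp hq => by rw [cut_eq_one hs hp, cut_eq_one hs hq]) hC hf hfo

/-! ### The mass of a functional -/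

open Classical in
lemma mass_le {o : M} {η : ℝ} (hη : 0 < η) (hsep : ∀ p q : M, p ≠ q → η ≤ dist p q)
    {c : M →₀ 𝕜} {R : ℝ} (hR : ∀ f : M → 𝕜, IsLip 1 f → f o = 0 → ‖pr c f‖ ≤ R) :
    ∑ p ∈ c.support with p ≠ o, ‖c p‖ ≤ 2 * R / η := by
  have hph : ∀ z : 𝕜, ∃ w : 𝕜, ‖w‖ = 1 ∧ ((‖z‖ : ℝ) : 𝕜) = w * z := fun z =>
    RCLike.exists_norm_eq_mul_self z
  choose w hw1 hw2 using hph
  let f : M → 𝕜 := fun p => if p = o then 0 else ((η / 2 : ℝ) : 𝕜) * w (c p)
  have hfn : ∀ p, ‖f p‖ ≤ η / 2 := by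
    intro p
    by_cases h : p = o
    · simp only [f, if_pos h, norm_zero]; positivity
    · simp only [f, if_neg h, norm_mul, hw1, RCLike.norm_ofReal, mul_one]
      rw [abs_of_pos (by positivity)]
  have hf : IsLip 1 f := by
    intro p q
    by_cases h : p = q
    · simp [h]
    · have h1 := norm_sub_le (f p) (f q)
      have := hsep p q h
      linarith [hfn p, hfn q]
  have hfo : f o = 0 := by simp [f]
  have h1 := hR f hf hfo
  have h2 : pr c f = ((η / 2 * ∑ p ∈ c.support with p ≠ o, ‖c p‖ : ℝ) : 𝕜) := by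
    rw [pr, Finset.sum_filter]
    push_cast
    rw [Finset.mul_sum]
    refine Finset.sum_congr rfl fun p _ => ?_
    by_cases h : p = o
    · simp [f, h]
    · simp only [f, if_neg h, ne_eq, h, not_false_eq_true, if_true, hw2]
      push_cast
      ring
  rw [h2, RCLike.norm_ofReal, abs_of_nonneg (by positivity)] at h1
  rw [le_div_iff₀ hη]
  linarith

/-! ### Case A1: gliding humps at infinity -/

lemma caseA1 {o : M} {c : ℕ → M →₀ 𝕜} {τ : ℝ}
    (h : ∀ s : ℝ, 0 < s → ∀ n₀ : ℕ, ∃ i, n₀ ≤ i ∧ ∃ f : M → 𝕜, IsLip 1 f ∧ f o = 0 ∧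
      τ < ‖pr (c i) (fun p => (cut o s p : 𝕜) * f p)‖) :
    ∃ F : M → 𝕜, IsLip 18 F ∧ F o = 0 ∧
      ∀ n : ℕ, ∃ k, n ≤ k ∧ ∃ l, n ≤ l ∧ τ ≤ ‖pr (c k) F - pr (c l) F‖ := by
  classical
  -- radii of the supports
  have hrad : ∀ i (s : ℝ), ∃ t, s ≤ t ∧ ∀ p ∈ (c i).support, dist p o ≤ t := by
    intro i s
    refine ⟨max s (∑ p ∈ (c i).support, dist p o), le_max_left _ _, fun p hp => ?_⟩
    exact (Finset.single_le_sum (f := fun p => dist p o) (fun _ _ => dist_nonneg) hp).trans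
      (le_max_right _ _)
  choose rad hrad1 hrad2 using hrad
  have h' : ∀ (s : ℝ) (n₀ : ℕ), ∃ i, n₀ ≤ i ∧ ∃ f : M → 𝕜, 0 < s → (IsLip 1 f ∧ f o = 0 ∧
      τ < ‖pr (c i) (fun p => (cut o s p : 𝕜) * f p)‖) := by
    intro s n₀
    by_cases hs : 0 < s
    · obtain ⟨i, hi, f, hf⟩ := h s hs n₀
      exact ⟨i, hi, f, fun _ => hf⟩
    · exact ⟨n₀, le_rfl, 0, fun h => absurd h hs⟩
  choose I hI ff hff using h'
  -- the states
  let st : ℕ → ℝ × ℕ := fun j => Nat.rec (1, 0)
    (fun _ a => (2 * rad (I a.1 a.2) a.1, I a.1 a.2 + 1)) j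
  let s : ℕ → ℝ := fun j => (st j).1
  let i : ℕ → ℕ := fun j => I (st j).1 (st j).2
  let t : ℕ → ℝ := fun j => rad (i j) (s j)
  let f : ℕ → M → 𝕜 := fun j => ff (st j).1 (st j).2
  have hs_succ : ∀ j, s (j + 1) = 2 * t j := fun j => rfl
  have hn_succ : ∀ j, (st (j + 1)).2 = i j + 1 := fun j => rfl
  have hs0 : ∀ j, (1 : ℝ) ≤ s j := by
    intro j
    induction j with
    | zero => exact le_rfl
    | succ j ih =>
      rw [hs_succ]
      have : s j ≤ t j := hrad1 _ _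
      linarith
  have hspos : ∀ j, 0 < s j := fun j => lt_of_lt_of_le one_pos (hs0 j)
  have hst : ∀ j, s j ≤ t j := fun j => hrad1 _ _
  have htpos : ∀ j, 0 < t j := fun j => (hspos j).trans_le (hst j)
  have hsmono : Monotone s := by
    refine monotone_nat_of_le_succ fun j => ?_
    rw [hs_succ]
    linarith [hst j, htpos j]
  have hsgrow : ∀ j : ℕ, (j : ℝ) ≤ s j := by
    intro j
    induction j with
    | zero => simpa using (hspos 0).le
    | succ j ih =>
      rw [hs_succ]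
      push_cast
      linarith [hst j, hs0 j]
  have hii : ∀ j, i j < i (j + 1) := by
    intro j
    have h1 : (st (j + 1)).2 ≤ i (j + 1) := hI _ _
    rw [hn_succ] at h1
    omega
  have hige : ∀ j, j ≤ i j := fun j => (strictMono_nat_of_lt_succ hii).id_le j
  have hf1 : ∀ j, IsLip 1 (f j) := fun j => (hff _ _ (hspos j)).1
  have hf0 : ∀ j, f j o = 0 := fun j => (hff _ _ (hspos j)).2.1
  have hfτ : ∀ j, τ < ‖pr (c (i j)) (fun p => (cut o (s j) p : 𝕜) * f j p)‖ :=
    fun j => (hff _ _ (hspos j)).2.2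
  -- the humps
  let g : ℕ → M → 𝕜 := fun j p =>
    (cut o (s j) p : 𝕜) * (((1 - cut o (t j) p : ℝ) : 𝕜) * f j p)
  have hg1 : ∀ j, IsLip 9 (g j) := by
    intro j
    have h1 := (hf1 j).one_sub_cut_mul (o := o) (htpos j) zero_le_one (hf0 j)
    have h2 := h1.cut_mul (o := o) (hspos j) (by norm_num) (by simp [hf0 j])
    exact h2.mono (by norm_num)
  have hgo : ∀ j, g j o = 0 := fun j => by simp [g, hf0 j]
  have hgs : ∀ j p, dist p o ≤ s j → g j p = 0 := by
    intro j p hp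
    simp [g, cut_eq_zero (hspos j) hp]
  have hgt : ∀ j p, s (j + 1) ≤ dist p o → g j p = 0 := by
    intro j p hp
    rw [hs_succ] at hp
    simp [g, cut_eq_one (htpos j) hp]
  have hgτ : ∀ j, τ < ‖pr (c (i j)) (g j)‖ := by
    intro j
    have e : pr (c (i j)) (g j) = pr (c (i j)) (fun p => (cut o (s j) p : 𝕜) * f j p) := by
      refine pr_congr _ fun p hp => ?_
      have : dist p o ≤ t j := hrad2 _ _ p hp
      simp [g, cut_eq_zero (htpos j) this]
    rw [e]
    exact hfτ j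
  -- the partial sums with adapted signs
  let P : ℕ → M → 𝕜 := fun j => Nat.rec (fun _ => 0)
    (fun j a => if τ ≤ ‖pr (c (i j)) (fun p => a p + g j p) - pr (c (i (j - 1))) a‖
      then (fun p => a p + g j p) else (fun p => a p - g j p)) j
  have hP0 : P 0 = fun _ => 0 := rfl
  have hPs : ∀ j, P (j + 1) = if τ ≤ ‖pr (c (i j)) (fun p => P j p + g j p)
      - pr (c (i (j - 1))) (P j)‖
      then (fun p => P j p + g j p) else (fun p => P j p - g j p) := fun j => rfl
  have hPor : ∀ j, ∃ θ : 𝕜, ‖θ‖ = 1 ∧ ∀ p, P (j + 1) p = P j p + θ * g j p := by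
    intro j
    rw [hPs]
    split_ifs
    · exact ⟨1, by simp, fun p => by simp⟩
    · exact ⟨-1, by simp, fun p => by ring⟩
  have hPstep : ∀ j, τ ≤ ‖pr (c (i j)) (P (j + 1)) - pr (c (i (j - 1))) (P j)‖ := by
    intro j
    rw [hPs]
    split_ifs with hh
    · exact hh
    · push Not at hh
      rw [pr_add] at hh
      rw [pr_sub]
      set x := pr (c (i j)) (P j)
      set y := pr (c (i (j - 1))) (P j)
      set z := pr (c (i j)) (g j)
      have h1 : ‖z‖ + ‖z‖ ≤ ‖x + z - y‖ + ‖x - z - y‖ := by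
        have e : z + z = (x + z - y) - (x - z - y) := by ring
        have e2 : ‖z + z‖ = ‖z‖ + ‖z‖ := by
          rw [← two_mul, norm_mul, RCLike.norm_ofNat, two_mul]
        rw [← e2, e]
        exact norm_sub_le _ _
      have h2 : τ < ‖z‖ := hgτ j
      linarith
  -- invariants
  have hI2 : ∀ j p q, s j ≤ dist q o → ‖P j p‖ ≤ 9 * dist p q := by
    intro j
    induction j with
    | zero => intro p q _; rw [hP0]; simp
    | succ j ih =>
      intro p q hq
      obtain ⟨θ, hθ, hP⟩ := hPor j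
      rw [hP]
      rcases le_total (dist p o) (s j) with hp | hp
      · rw [hgs j p hp, mul_zero, add_zero]
        exact ih p q ((hsmono (Nat.le_succ j)).trans hq)
      · have h0 : P j p = 0 := by
          have := ih p p hp
          rw [dist_self, mul_zero] at this
          exact norm_le_zero_iff.1 this
        rw [h0, zero_add, norm_mul, hθ, one_mul]
        have := hg1 j p q
        rwa [hgt j q hq, sub_zero] at this
  have hPout : ∀ j p, s j ≤ dist p o → P j p = 0 := by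
    intro j p hp
    have := hI2 j p p hp
    rw [dist_self, mul_zero] at this
    exact norm_le_zero_iff.1 this
  have hI1 : ∀ j, IsLip 18 (P j) := by
    intro j
    induction j with
    | zero => intro p q; rw [hP0]; simp
    | succ j ih =>
      obtain ⟨θ, hθ, hP⟩ := hPor j
      have key : ∀ p q, dist p o ≤ dist q o → ‖P (j + 1) p - P (j + 1) q‖ ≤ 18 * dist p q := by
        intro p q hpq
        rw [hP, hP]
        have hd : 0 ≤ dist p q := dist_nonneg
        rcases le_total (dist q o) (s j) with hq | hq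
        · rw [hgs j p (hpq.trans hq), hgs j q hq]
          simpa using ih p q
        · rcases le_total (dist p o) (s j) with hp | hp
          · rw [hgs j p hp, hPout j q hq]
            have h1 := hI2 j p q hq
            have h2 := hg1 j p q
            rw [hgs j p hp, zero_sub, norm_neg] at h2
            have e : P j p + θ * 0 - (0 + θ * g j q) = P j p - θ * g j q := by ring
            rw [e]
            refine (norm_sub_le _ _).trans ?_
            rw [norm_mul, hθ, one_mul]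
            linarith
          · rw [hPout j q hq, hPout j p hp]
            have e : (0 : 𝕜) + θ * g j p - (0 + θ * g j q) = θ * (g j p - g j q) := by ring
            rw [e, norm_mul, hθ, one_mul]
            have := hg1 j p q
            linarith
      intro p q
      rcases le_total (dist p o) (dist q o) with h | h
      · exact key p q h
      · have := key q p h
        rw [norm_sub_rev, dist_comm q p] at this
        exact this
  -- stabilisation
  have hstab : ∀ j p, dist p o ≤ s j → ∀ m, j ≤ m → P m p = P j p := by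
    intro j p hp m hm
    induction m, hm using Nat.le_induction with
    | base => rfl
    | succ m hm ih =>
      obtain ⟨θ, hθ, hP⟩ := hPor m
      rw [hP, hgs m p (hp.trans (hsmono hm)), mul_zero, add_zero, ih]
  have hN : ∀ p : M, ∃ N : ℕ, dist p o ≤ s N := by
    intro p
    obtain ⟨N, hN⟩ := exists_nat_ge (dist p o)
    exact ⟨N, hN.trans (hsgrow N)⟩
  choose N hN using hN
  let F : M → 𝕜 := fun p => P (N p) p
  have hF : ∀ j p, dist p o ≤ s j → F p = P j p := by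
    intro j p hp
    have h1 := hstab (N p) p (hN p) (max (N p) j) (le_max_left _ _)
    have h2 := hstab j p hp (max (N p) j) (le_max_right _ _)
    rw [← h2, h1]
  refine ⟨F, ?_, ?_, ?_⟩
  · intro p q
    have hp : dist p o ≤ s (max (N p) (N q)) := (hN p).trans (hsmono (le_max_left _ _))
    have hq : dist q o ≤ s (max (N p) (N q)) := (hN q).trans (hsmono (le_max_right _ _))
    rw [hF _ p hp, hF _ q hq]
    exact hI1 _ p q
  · rw [hF 0 o (by simpa using (hspos 0).le), hP0]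
  · intro n
    refine ⟨i (n + 1), (hige _).trans' (Nat.le_succ n), i n, hige n, ?_⟩
    have h1 := hPstep (n + 1)
    have e1 : pr (c (i (n + 1))) F = pr (c (i (n + 1))) (P (n + 1 + 1)) := by
      refine pr_congr _ fun p hp => hF (n + 1 + 1) p ?_
      have h2 : dist p o ≤ t (n + 1) := hrad2 _ _ p hp
      have h3 := hs_succ (n + 1)
      have h4 := htpos (n + 1)
      change dist p o ≤ s (n + 1 + 1)
      linarith
    have e2 : pr (c (i n)) F = pr (c (i n)) (P (n + 1)) := by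
      refine pr_congr _ fun p hp => hF (n + 1) p ?_
      have h2 : dist p o ≤ t n := hrad2 _ _ p hp
      have h3 := hs_succ n
      have h4 := htpos n
      change dist p o ≤ s (n + 1)
      linarith
    rw [e1, e2]
    simpa using h1

/-! ### Case B: almost finite-dimensional sequences -/

lemma caseB {o : M} {η : ℝ} (hη : 0 < η) (hsep : ∀ p q : M, p ≠ q → η ≤ dist p q)
    {c : ℕ → M →₀ 𝕜} {R : ℝ} (hR : ∀ i, ∀ f : M → 𝕜, IsLip 1 f → f o = 0 → ‖pr (c i) f‖ ≤ R)
    {L : ℝ} (hL : 0 < L)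
    (h : ∀ n : ℕ, ∃ k, n ≤ k ∧ ∃ l, n ≤ l ∧ ∃ f : M → 𝕜, IsLip 1 f ∧ f o = 0 ∧
      L ≤ ‖pr (c k) f - pr (c l) f‖)
    {A : Finset M} (hoA : o ∈ A) {n₀ : ℕ}
    (hA : ∀ i, n₀ ≤ i → ∀ u : M → 𝕜, IsLip 1 u → (∀ p ∈ A, u p = 0) → ‖pr (c i) u‖ ≤ L / 16) :
    ∃ F : M → 𝕜, IsLip 4 F ∧ F o = 0 ∧
      ∀ n : ℕ, ∃ k, n ≤ k ∧ ∃ l, n ≤ l ∧ L ≤ ‖pr (c k) F - pr (c l) F‖ := by
  classical
  have hR0 : 0 ≤ R := (norm_nonneg _).trans (hR 0 (fun _ => 0) (by intro p q; simp) rfl)
  choose k hk l hl f hf1 hf0 hfL using h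
  -- restrictions to `A`
  let v : ℕ → (A → 𝕜) := fun n a => f n a
  have hv : ∀ n, v n ∈ Set.pi Set.univ (fun a : A => closedBall (0 : 𝕜) (dist (a : M) o)) := by
    intro n a _
    rw [mem_closedBall, dist_zero_right]
    have := hf1 n a o
    rw [hf0, sub_zero, one_mul] at this
    exact this
  have hcomp : IsCompact (Set.pi Set.univ (fun a : A => closedBall (0 : 𝕜) (dist (a : M) o))) :=
    isCompact_univ_pi fun a => isCompact_closedBall _ _
  obtain ⟨w, -, φ, hφ, hlim⟩ := hcomp.tendsto_subseq hv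
  -- small parameter
  obtain ⟨κ, hκ0, hκ1, hκR⟩ : ∃ κ : ℝ, 0 < κ ∧ κ ≤ 1 ∧ κ * R ≤ L / 16 := by
    refine ⟨min 1 (L / 16 / (R + 1)), lt_min one_pos (by positivity), min_le_left _ _, ?_⟩
    have h1 : min 1 (L / 16 / (R + 1)) * R ≤ L / 16 / (R + 1) * R :=
      mul_le_mul_of_nonneg_right (min_le_right _ _) hR0
    have h2 : L / 16 / (R + 1) * R ≤ L / 16 := by
      rw [div_mul_eq_mul_div, div_le_iff₀ (by linarith)]
      nlinarith
    exact h1.trans h2
  have hε : 0 < κ * η / 4 := by positivity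
  obtain ⟨N, hN⟩ := Metric.tendsto_atTop.1 hlim (κ * η / 4) hε
  -- comparison function
  let m : ℕ := φ (max N n₀)
  have hcl : ∀ j, N ≤ j → ∀ a ∈ A, ‖f m a - f (φ j) a‖ ≤ κ * η / 2 := by
    intro j hj a ha
    have h1 := hN j hj
    have h2 := hN (max N n₀) (le_max_left _ _)
    have h3 : dist (v m ⟨a, ha⟩) (v (φ j) ⟨a, ha⟩) ≤ κ * η / 2 := by
      have h4 : dist (v m ⟨a, ha⟩) (w ⟨a, ha⟩) ≤ dist (v m) w := dist_le_pi_dist _ _ _
      have h5 : dist (v (φ j) ⟨a, ha⟩) (w ⟨a, ha⟩) ≤ dist (v (φ j)) w := dist_le_pi_dist _ _ _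
      have h6 := dist_triangle_right (v m ⟨a, ha⟩) (v (φ j) ⟨a, ha⟩) (w ⟨a, ha⟩)
      have h1' : dist (v (φ j)) w < κ * η / 4 := h1
      have h2' : dist (v m) w < κ * η / 4 := h2
      linarith
    rw [dist_eq_norm] at h3
    exact h3
  refine ⟨fun p => 4 * f m p, ?_, ?_, ?_⟩
  · have := (hf1 m).const_mul (a := (4 : 𝕜)) (D := 4) (by simp) zero_le_one
    exact this.mono (by norm_num)
  · simp [hf0]
  intro n
  -- index in the subsequence
  let j := max N (max n n₀)
  have hjN : N ≤ j := le_max_left _ _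
  have hjφ : j ≤ φ j := hφ.id_le j
  have hjn : n ≤ φ j := ((le_max_left n n₀).trans (le_max_right N _)).trans hjφ
  have hjn0 : n₀ ≤ φ j := ((le_max_right n n₀).trans (le_max_right N _)).trans hjφ
  refine ⟨k (φ j), hjn.trans (hk _), l (φ j), hjn.trans (hl _), ?_⟩
  -- the small function
  have hsm : ∀ p ∈ (A : Set M), ∀ q ∈ (A : Set M),
      ‖(f m p - f (φ j) p) - (f m q - f (φ j) q)‖ ≤ κ / 2 * 2 * dist p q := by
    intro p hp q hq
    by_cases hpq : p = q
    · simp [hpq]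
    · have h1 := hcl j hjN p hp
      have h2 := hcl j hjN q hq
      have h3 := hsep p q hpq
      have h4 := norm_sub_le (f m p - f (φ j) p) (f m q - f (φ j) q)
      nlinarith
  obtain ⟨e, he, heA⟩ := exists_ext (S := (A : Set M)) (C := κ / 2 * 2) (by positivity)
    (f := fun p => f m p - f (φ j) p) hsm
  have heo : e o = 0 := by rw [heA o hoA]; simp [hf0]
  have he2 : IsLip (2 * κ) e := he.mono (by linarith)
  -- bound of `e` on the functionals
  have hes : ∀ i, ‖pr (c i) e‖ ≤ L / 8 := by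
    intro i
    have h1 : IsLip 1 (fun p => ((1 / (2 * κ) : ℝ) : 𝕜) * e p) := by
      have := he2.const_mul (a := ((1 / (2 * κ) : ℝ) : 𝕜)) (D := 1 / (2 * κ))
        (by rw [RCLike.norm_ofReal, abs_of_pos (by positivity)]) (by positivity)
      refine this.mono (le_of_eq ?_)
      field_simp
    have h2 := hR i _ h1 (by simp [heo])
    rw [pr_const_mul, norm_mul, RCLike.norm_ofReal, abs_of_pos (by positivity)] at h2
    have h3 : ‖pr (c i) e‖ ≤ 2 * κ * R := by
      rw [div_mul_eq_mul_div, one_mul, div_le_iff₀ (by positivity)] at h2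
      linarith
    linarith
  -- the function vanishing on `A`
  let g : M → 𝕜 := fun p => (f m p - f (φ j) p) - e p
  have hg : IsLip 4 g := by
    have h1 := ((hf1 m).sub (hf1 (φ j))).sub he2
    exact h1.mono (by linarith)
  have hgA : ∀ p ∈ A, g p = 0 := by
    intro p hp
    have : e p = f m p - f (φ j) p := heA p hp
    simp [g, this]
  have hgs : ∀ i, n₀ ≤ i → ‖pr (c i) g‖ ≤ L / 4 := by
    intro i hi
    have h1 : IsLip 1 (fun p => ((1 / 4 : ℝ) : 𝕜) * g p) := by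
      have := hg.const_mul (a := ((1 / 4 : ℝ) : 𝕜)) (D := 1 / 4)
        (by rw [RCLike.norm_ofReal, abs_of_pos (by positivity)]) (by positivity)
      exact this.mono (by norm_num)
    have h2 := hA i hi _ h1 (fun p hp => by simp [hgA p hp])
    rw [pr_const_mul, norm_mul, RCLike.norm_ofReal, abs_of_pos (by positivity)] at h2
    linarith
  have hdec : ∀ i, pr (c i) (f m) = pr (c i) (f (φ j)) + pr (c i) g + pr (c i) e := by
    intro i
    rw [← pr_add, ← pr_add]
    refine pr_congr _ fun p _ => ?_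
    simp only [g]
    ring
  have h1 := hgs (k (φ j)) (hjn0.trans (hk _))
  have h2 := hgs (l (φ j)) (hjn0.trans (hl _))
  have h3 := hes (k (φ j))
  have h4 := hes (l (φ j))
  have h5 := hfL (φ j)
  rw [pr_const_mul, pr_const_mul, ← mul_sub, norm_mul, RCLike.norm_ofNat]
  set K := k (φ j)
  set Λ := l (φ j)
  have e1 : pr (c K) (f m) - pr (c Λ) (f m) = (pr (c K) (f (φ j)) - pr (c Λ) (f (φ j)))
      - ((pr (c Λ) g + pr (c Λ) e) - (pr (c K) g + pr (c K) e)) := by
    rw [hdec K, hdec Λ]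
    ring
  have h6 : ‖(pr (c Λ) g + pr (c Λ) e) - (pr (c K) g + pr (c K) e)‖ ≤
      (‖pr (c Λ) g‖ + ‖pr (c Λ) e‖) + (‖pr (c K) g‖ + ‖pr (c K) e‖) :=
    (norm_sub_le _ _).trans (add_le_add (norm_add_le _ _) (norm_add_le _ _))
  have h7 := norm_sub_norm_le (pr (c K) (f (φ j)) - pr (c Λ) (f (φ j)))
    ((pr (c Λ) g + pr (c Λ) e) - (pr (c K) g + pr (c K) e))
  rw [← e1] at h7
  linarith


/-! ### Case A2: typical points -/

lemma caseA2 {o : M} {η : ℝ} (hη : 0 < η) (hsep : ∀ p q : M, p ≠ q → η ≤ dist p q)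
    {c : ℕ → M →₀ 𝕜} {R : ℝ} (hR : ∀ i, ∀ f : M → 𝕜, IsLip 1 f → f o = 0 → ‖pr (c i) f‖ ≤ R)
    {q τ : ℝ} (hq : 0 < q) (hτq : 32 * τ ≤ q) {s : ℝ} (hs : 0 < s) {n₀ : ℕ}
    (hsmall : ∀ i, n₀ ≤ i → ∀ f : M → 𝕜, IsLip 1 f → f o = 0 →
      ‖pr (c i) (fun p => (cut o s p : 𝕜) * f p)‖ ≤ τ)
    (hA : ∀ A : Finset M, o ∈ A → ∀ n : ℕ, ∃ i, n ≤ i ∧ ∃ u : M → 𝕜, IsLip 1 u ∧
      (∀ p ∈ A, u p = 0) ∧ q < ‖pr (c i) u‖) :
    ∃ F : M → 𝕜, IsLip 10 F ∧ F o = 0 ∧
      ∀ n : ℕ, ∃ k, n ≤ k ∧ ∃ l, n ≤ l ∧ q ≤ ‖pr (c k) F - pr (c l) F‖ := by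
  classical
  have hR0 : 0 ≤ R := (norm_nonneg _).trans (hR 0 (fun _ => 0) (by intro p q; simp) rfl)
  -- weights and potential
  let w : ℕ → M → ℝ := fun i p => (1 - cut o s p) * ‖c i p‖
  have hw0 : ∀ i p, 0 ≤ w i p := fun i p =>
    mul_nonneg (sub_nonneg.2 (cut_le_one o s p)) (norm_nonneg _)
  let Φ : ℕ → Finset M → ℝ := fun i A => ∑ p ∈ (c i).support, w i p * infDist p (A : Set M)
  have hΦ0 : ∀ i A, 0 ≤ Φ i A := fun i A =>
    Finset.sum_nonneg fun p _ => mul_nonneg (hw0 i p) infDist_nonneg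
  have hΦB : ∀ i (A : Finset M), o ∈ A → Φ i A ≤ 2 * s * (2 * R / η) := by
    intro i A hoA
    have h1 : Φ i A ≤ ∑ p ∈ (c i).support, (if p ≠ o then 2 * s * ‖c i p‖ else 0) := by
      refine Finset.sum_le_sum fun p _ => ?_
      have hd : infDist p (A : Set M) ≤ dist p o := infDist_le_dist_of_mem hoA
      have hd0 : 0 ≤ infDist p (A : Set M) := infDist_nonneg
      split_ifs with hp
      · rcases le_total (2 * s) (dist p o) with h | h
        · simp only [w, cut_eq_one hs h, sub_self, zero_mul]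
          positivity
        · have h2 : w i p ≤ ‖c i p‖ := by
            have := cut_nonneg o s p
            have h3 := norm_nonneg (c i p)
            simp only [w]
            nlinarith
          calc w i p * infDist p (A : Set M) ≤ ‖c i p‖ * (2 * s) :=
                mul_le_mul h2 (hd.trans h) hd0 (norm_nonneg _)
            _ = 2 * s * ‖c i p‖ := by ring
      · push Not at hp
        have : infDist p (A : Set M) = 0 := by
          rw [hp]; exact infDist_zero_of_mem hoA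
        rw [this, mul_zero]
    rw [← Finset.sum_filter] at h1
    rw [← Finset.mul_sum] at h1
    have h2 := mass_le hη hsep (hR i)
    have h3 : (∑ p ∈ (c i).support with p ≠ o, ‖c i p‖) ≤ 2 * R / η := by
      convert h2
    exact h1.trans (mul_le_mul_of_nonneg_left h3 (by positivity))
  -- good indices
  let Good : Finset M → ℕ → Prop := fun A i => ∃ u : M → 𝕜, IsLip 1 u ∧
      (∀ p ∈ A, u p = 0) ∧ q < ‖pr (c i) u‖
  have hGmono : ∀ {A B : Finset M}, A ⊆ B → ∀ {i}, Good B i → Good A i := by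
    rintro A B hAB i ⟨u, h1, h2, h3⟩
    exact ⟨u, h1, fun p hp => h2 p (hAB hp), h3⟩
  let T : Set ℝ := {t | ∀ A : Finset M, o ∈ A → ∀ n : ℕ, ∃ i, n ≤ i ∧ Good A i ∧ t ≤ Φ i A}
  have hT0 : (0 : ℝ) ∈ T := by
    intro A hoA n
    obtain ⟨i, hi, hu⟩ := hA A hoA n
    exact ⟨i, hi, hu, hΦ0 i A⟩
  have hTb : BddAbove T := by
    refine ⟨2 * s * (2 * R / η), fun t ht => ?_⟩
    obtain ⟨i, -, -, h⟩ := ht {o} (Finset.mem_singleton_self o) 0
    exact h.trans (hΦB i _ (Finset.mem_singleton_self o))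
  obtain ⟨ε, hε, hεq⟩ : ∃ ε : ℝ, 0 < ε ∧ 352 * ε ≤ q :=
    ⟨q / 352, by positivity, le_of_eq (by field_simp)⟩
  obtain ⟨t, htT, ht⟩ := exists_lt_of_lt_csSup ⟨0, hT0⟩ (sub_lt_self (sSup T) hε)
  have hnT : sSup T + ε ∉ T := by
    intro h
    have := le_csSup hTb h
    linarith
  have hnT' : ∃ A : Finset M, o ∈ A ∧ ∃ n : ℕ, ∀ i, n ≤ i → Good A i → Φ i A < sSup T + ε := by
    by_contra hcon
    push Not at hcon
    exact hnT hcon
  obtain ⟨A₀, hoA₀, n₁, hn₁⟩ := hnT'
  have hsel : ∀ (A : Finset M) (n : ℕ), ∃ i, n ≤ i ∧ ∃ u : M → 𝕜, A₀ ⊆ A →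
      (n₁ ≤ i ∧ IsLip 1 u ∧ (∀ p ∈ A₀, u p = 0) ∧ q < ‖pr (c i) u‖ ∧ Φ i A₀ - Φ i A < 2 * ε) := by
    intro A n
    by_cases hAA : A₀ ⊆ A
    · obtain ⟨i, hi, hg, hti⟩ := htT A (hAA hoA₀) (max n n₁)
      have hg0 : Good A₀ i := hGmono hAA hg
      have h1 := hn₁ i ((le_max_right _ _).trans hi) hg0
      obtain ⟨u, hu1, hu2, hu3⟩ := hg0
      exact ⟨i, (le_max_left _ _).trans hi, u, fun _ =>
        ⟨(le_max_right _ _).trans hi, hu1, hu2, hu3, by linarith⟩⟩
    · exact ⟨n, le_rfl, 0, fun h => absurd h hAA⟩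
  choose I hI uu huu using hsel
  -- the states
  let st : ℕ → Finset M × ℕ := fun j => Nat.rec (A₀, n₀)
    (fun _ a => (a.1 ∪ (c (I a.1 a.2)).support, I a.1 a.2 + 1)) j
  let S : ℕ → Finset M := fun j => (st j).1
  let i : ℕ → ℕ := fun j => I (st j).1 (st j).2
  let u : ℕ → M → 𝕜 := fun j => uu (st j).1 (st j).2
  have hS0 : S 0 = A₀ := rfl
  have hSs : ∀ j, S (j + 1) = S j ∪ (c (i j)).support := fun j => rfl
  have hns : ∀ j, (st (j + 1)).2 = i j + 1 := fun j => rfl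
  have hSmono : Monotone S := monotone_nat_of_le_succ fun j => by
    rw [hSs]; exact Finset.subset_union_left
  have hAS : ∀ j, A₀ ⊆ S j := fun j => hSmono (Nat.zero_le j)
  have hsupp : ∀ j k, j < k → (c (i j)).support ⊆ S k := by
    intro j k hjk
    have h1 : (c (i j)).support ⊆ S (j + 1) := by
      rw [hSs]; exact Finset.subset_union_right
    exact h1.trans (hSmono hjk)
  have hii : ∀ j, i j < i (j + 1) := by
    intro j
    have h1 : (st (j + 1)).2 ≤ i (j + 1) := hI _ _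
    rw [hns] at h1
    omega
  have hige : ∀ j, j ≤ i j := fun j => (strictMono_nat_of_lt_succ hii).id_le j
  have hi0 : ∀ j, n₀ ≤ i j := by
    intro j
    have h1 : n₀ ≤ i 0 := hI _ _
    exact h1.trans ((strictMono_nat_of_lt_succ hii).monotone (Nat.zero_le j))
  have hu1 : ∀ j, IsLip 1 (u j) := fun j => (huu _ _ (hAS j)).2.1
  have huA : ∀ j, ∀ p ∈ A₀, u j p = 0 := fun j => (huu _ _ (hAS j)).2.2.1
  have huq : ∀ j, q < ‖pr (c (i j)) (u j)‖ := fun j => (huu _ _ (hAS j)).2.2.2.1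
  have hΦj : ∀ j, Φ (i j) A₀ - Φ (i j) (S j) < 2 * ε := fun j => (huu _ _ (hAS j)).2.2.2.2
  have hA₀ne : (A₀ : Set M).Nonempty := ⟨o, hoA₀⟩
  -- distances
  let r : M → ℝ := fun p => infDist p (A₀ : Set M)
  let rr : ℕ → M → ℝ := fun j p => infDist p (S j : Set M)
  have hr0 : ∀ p, 0 ≤ r p := fun p => infDist_nonneg
  have hrr0 : ∀ j p, 0 ≤ rr j p := fun j p => infDist_nonneg
  have hrr : ∀ j p, rr j p ≤ r p := fun j p =>
    infDist_le_infDist_of_subset (by exact_mod_cast hAS j) hA₀ne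
  have hur : ∀ j p, ‖u j p‖ ≤ r p := by
    intro j p
    have := (hu1 j).norm_le_infDist zero_le_one hA₀ne (fun a ha => huA j a ha) p
    rwa [one_mul] at this
  -- typical points
  let Y : ℕ → Set M := fun j => {p | p ∈ (c (i j)).support ∧ 0 < r p ∧ r p ≤ 2 * rr j p}
  have hYdisj : ∀ j k, j < k → ∀ p, p ∈ Y j → p ∈ Y k → False := by
    intro j k hjk p hpj hpk
    have h1 : rr k p = 0 := infDist_zero_of_mem (by exact_mod_cast hsupp j k hjk hpj.1)
    have h2 := hpk.2.2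
    rw [h1] at h2
    linarith [hpk.2.1]
  have hYuniq : ∀ j k p, p ∈ Y j → p ∈ Y k → j = k := by
    intro j k p hj hk
    rcases lt_trichotomy j k with h | h | h
    · exact (hYdisj j k h p hj hk).elim
    · exact h
    · exact (hYdisj k j h p hk hj).elim
  -- phases
  have hph : ∀ j, ∃ θ : 𝕜, ‖θ‖ = 1 ∧
      θ * pr (c (i j)) (fun p => ((1 - cut o s p : ℝ) : 𝕜) * u j p) =
        (-1) ^ j * ((‖pr (c (i j)) (fun p => ((1 - cut o s p : ℝ) : 𝕜) * u j p)‖ : ℝ) : 𝕜) := by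
    intro j
    obtain ⟨a, ha, hae⟩ := RCLike.exists_norm_eq_mul_self
      (pr (c (i j)) (fun p => ((1 - cut o s p : ℝ) : 𝕜) * u j p))
    refine ⟨(-1) ^ j * a, by simp [ha], ?_⟩
    rw [mul_assoc, ← hae]
  choose θ hθ hθe using hph
  -- the function on the typical points
  let f : M → 𝕜 := fun p => if h : ∃ j, p ∈ Y j then θ h.choose * u h.choose p else 0
  have hfY : ∀ j p, p ∈ Y j → f p = θ j * u j p := by
    intro j p hp
    have hex : ∃ j, p ∈ Y j := ⟨j, hp⟩
    have h1 : hex.choose = j := hYuniq _ _ p hex.choose_spec hp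
    simp only [f, dif_pos hex, h1]
  have hfA : ∀ p ∈ (A₀ : Set M), f p = 0 := by
    intro p hp
    have hr : r p = 0 := infDist_zero_of_mem hp
    have hnex : ¬ ∃ j, p ∈ Y j := by
      rintro ⟨j, hj⟩
      linarith [hj.2.1]
    simp only [f, dif_neg hnex]
  have hfYr : ∀ j p, p ∈ Y j → ‖f p‖ ≤ r p := by
    intro j p hp
    rw [hfY j p hp, norm_mul, hθ, one_mul]
    exact hur j p
  have hYY : ∀ j k, j < k → ∀ p ∈ Y k, ∀ p' ∈ Y j, ‖f p - f p'‖ ≤ 5 * dist p p' := by
    intro j k hjk p hp p' hp'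
    have h1 : rr k p ≤ dist p p' :=
      infDist_le_dist_of_mem (by exact_mod_cast hsupp j k hjk hp'.1)
    have h2 := hp.2.2
    have h3 : r p' ≤ r p + dist p' p := infDist_le_infDist_add_dist
    rw [dist_comm] at h3
    have h4 := norm_sub_le (f p) (f p')
    have h5 := hfYr k p hp
    have h6 := hfYr j p' hp'
    linarith
  have hYA : ∀ j, ∀ p ∈ Y j, ∀ a ∈ (A₀ : Set M), ‖f p - f a‖ ≤ 5 * dist p a := by
    intro j p hp a ha
    rw [hfA a ha, sub_zero]
    have h1 := hfYr j p hp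
    have h2 : r p ≤ dist p a := infDist_le_dist_of_mem ha
    have h3 : 0 ≤ dist p a := dist_nonneg
    linarith
  have hfS : ∀ p ∈ (A₀ : Set M) ∪ ⋃ j, Y j, ∀ p' ∈ (A₀ : Set M) ∪ ⋃ j, Y j,
      ‖f p - f p'‖ ≤ 5 * dist p p' := by
    intro p hp p' hp'
    rcases hp with hp | hp
    · rcases hp' with hp' | hp'
      · rw [hfA p hp, hfA p' hp', sub_self, norm_zero]
        positivity
      · obtain ⟨j, hj⟩ := mem_iUnion.1 hp'
        have := hYA j p' hj p hp
        rwa [norm_sub_rev, dist_comm] at this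
    · obtain ⟨j, hj⟩ := mem_iUnion.1 hp
      rcases hp' with hp' | hp'
      · exact hYA j p hj p' hp'
      · obtain ⟨k, hk⟩ := mem_iUnion.1 hp'
        rcases lt_trichotomy j k with h | h | h
        · have := hYY j k h p' hk p hj
          rwa [norm_sub_rev, dist_comm] at this
        · subst h
          rw [hfY j p hj, hfY j p' hk, ← mul_sub, norm_mul, hθ, one_mul]
          have := hu1 j p p'
          have h0 : 0 ≤ dist p p' := dist_nonneg
          linarith
        · exact hYY k j h p hj p' hk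
  obtain ⟨F, hF10, hFS⟩ := exists_ext (by norm_num : (0 : ℝ) ≤ 5) hfS
  have hFL : IsLip 10 F := hF10.mono (by norm_num)
  have hFA : ∀ a ∈ (A₀ : Set M), F a = 0 := fun a ha => by
    rw [hFS a (Or.inl ha), hfA a ha]
  have hFo : F o = 0 := hFA o hoA₀
  have hFr : ∀ p, ‖F p‖ ≤ 10 * r p := hFL.norm_le_infDist (by norm_num) hA₀ne hFA
  -- estimates
  have hest : ∀ j, ‖pr (c (i j)) F - (-1) ^ j *
      ((‖pr (c (i j)) (fun p => ((1 - cut o s p : ℝ) : 𝕜) * u j p)‖ : ℝ) : 𝕜)‖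
        ≤ 10 * τ + 44 * ε := by
    intro j
    have hd1 : pr (c (i j)) F = pr (c (i j)) (fun p => (cut o s p : 𝕜) * F p)
        + pr (c (i j)) (fun p => ((1 - cut o s p : ℝ) : 𝕜) * F p) := by
      rw [← pr_add]
      refine pr_congr _ fun p _ => ?_
      push_cast
      ring
    have hcutF : ‖pr (c (i j)) (fun p => (cut o s p : 𝕜) * F p)‖ ≤ 10 * τ := by
      have h1 : IsLip 1 (fun p => ((1 / 10 : ℝ) : 𝕜) * F p) := by
        have := hFL.const_mul (a := ((1 / 10 : ℝ) : 𝕜)) (D := 1 / 10)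
          (by rw [RCLike.norm_ofReal, abs_of_pos (by positivity)]) (by positivity)
        exact this.mono (by norm_num)
      have h2 := hsmall (i j) (hi0 j) _ h1 (by simp [hFo])
      have h3 : pr (c (i j)) (fun p => (cut o s p : 𝕜) * (((1 / 10 : ℝ) : 𝕜) * F p))
          = ((1 / 10 : ℝ) : 𝕜) * pr (c (i j)) (fun p => (cut o s p : 𝕜) * F p) := by
        rw [← pr_const_mul]
        exact pr_congr _ fun p _ => by ring
      rw [h3, norm_mul, RCLike.norm_ofReal, abs_of_pos (by positivity)] at h2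
      linarith
    have hmain : ‖pr (c (i j)) (fun p => ((1 - cut o s p : ℝ) : 𝕜) * F p) -
        θ j * pr (c (i j)) (fun p => ((1 - cut o s p : ℝ) : 𝕜) * u j p)‖ ≤ 44 * ε := by
      have h1 : pr (c (i j)) (fun p => ((1 - cut o s p : ℝ) : 𝕜) * F p) -
          θ j * pr (c (i j)) (fun p => ((1 - cut o s p : ℝ) : 𝕜) * u j p) =
          ∑ p ∈ (c (i j)).support,
            c (i j) p * (((1 - cut o s p : ℝ) : 𝕜) * (F p - θ j * u j p)) := by
        rw [← pr_const_mul, ← pr_sub]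
        refine Finset.sum_congr rfl fun p _ => by ring
      rw [h1]
      have h2 : ∀ p ∈ (c (i j)).support,
          ‖c (i j) p * (((1 - cut o s p : ℝ) : 𝕜) * (F p - θ j * u j p))‖ ≤
            22 * (w (i j) p * r p - w (i j) p * rr j p) := by
        intro p hp
        rw [norm_mul, norm_mul, RCLike.norm_ofReal,
          abs_of_nonneg (sub_nonneg.2 (cut_le_one o s p))]
        have hw := hw0 (i j) p
        have hwe : w (i j) p = (1 - cut o s p) * ‖c (i j) p‖ := rfl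
        have e1 : ‖c (i j) p‖ * ((1 - cut o s p) * ‖F p - θ j * u j p‖) =
            w (i j) p * ‖F p - θ j * u j p‖ := by rw [hwe]; ring
        have e2 : 22 * (w (i j) p * r p - w (i j) p * rr j p) =
            w (i j) p * (22 * (r p - rr j p)) := by ring
        rw [e1, e2]
        refine mul_le_mul_of_nonneg_left ?_ hw
        by_cases hY : p ∈ Y j
        · have : F p = θ j * u j p := by
            rw [hFS p (Or.inr (mem_iUnion.2 ⟨j, hY⟩)), hfY j p hY]
          rw [this, sub_self, norm_zero]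
          have := hrr j p
          linarith
        · have h3 : ‖F p - θ j * u j p‖ ≤ 11 * r p := by
            have h4 := norm_sub_le (F p) (θ j * u j p)
            rw [norm_mul, hθ, one_mul] at h4
            linarith [hFr p, hur j p]
          have h4 : r p ≤ 2 * (r p - rr j p) := by
            rcases (hr0 p).eq_or_lt with h | h
            · have h5 := hrr j p
              linarith
            · by_contra hcon
              push Not at hcon
              exact hY ⟨hp, h, by linarith⟩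
          linarith
      refine (norm_sum_le _ _).trans ((Finset.sum_le_sum h2).trans ?_)
      rw [← Finset.mul_sum, Finset.sum_sub_distrib]
      have h3 := hΦj j
      have h4 : Φ (i j) A₀ - Φ (i j) (S j) = ∑ p ∈ (c (i j)).support, w (i j) p * r p -
          ∑ p ∈ (c (i j)).support, w (i j) p * rr j p := rfl
      rw [← h4]
      linarith
    rw [← hθe j, hd1]
    have e : pr (c (i j)) (fun p => (cut o s p : 𝕜) * F p) +
        pr (c (i j)) (fun p => ((1 - cut o s p : ℝ) : 𝕜) * F p) -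
        θ j * pr (c (i j)) (fun p => ((1 - cut o s p : ℝ) : 𝕜) * u j p) =
        pr (c (i j)) (fun p => (cut o s p : 𝕜) * F p) +
        (pr (c (i j)) (fun p => ((1 - cut o s p : ℝ) : 𝕜) * F p) -
        θ j * pr (c (i j)) (fun p => ((1 - cut o s p : ℝ) : 𝕜) * u j p)) := by ring
    rw [e]
    exact (norm_add_le _ _).trans (add_le_add hcutF hmain)
  have hbig : ∀ j, q - τ ≤ ‖pr (c (i j)) (fun p => ((1 - cut o s p : ℝ) : 𝕜) * u j p)‖ := by
    intro j
    have h1 : pr (c (i j)) (fun p => ((1 - cut o s p : ℝ) : 𝕜) * u j p) =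
        pr (c (i j)) (u j) - pr (c (i j)) (fun p => (cut o s p : 𝕜) * u j p) := by
      rw [← pr_sub]
      refine pr_congr _ fun p _ => ?_
      push_cast
      ring
    have h2 := hsmall (i j) (hi0 j) (u j) (hu1 j) (huA j o hoA₀)
    have h3 := norm_sub_norm_le (pr (c (i j)) (u j))
      (pr (c (i j)) (fun p => (cut o s p : 𝕜) * u j p))
    rw [h1]
    linarith [huq j]
  refine ⟨F, hFL, hFo, fun n => ⟨i n, hige n, i (n + 1), (hige _).trans' (Nat.le_succ n), ?_⟩⟩
  have h1 := hest n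
  have h2 := hest (n + 1)
  have h3 := hbig n
  have h4 := hbig (n + 1)
  set m₁ := ‖pr (c (i n)) (fun p => ((1 - cut o s p : ℝ) : 𝕜) * u n p)‖
  set m₂ := ‖pr (c (i (n + 1))) (fun p => ((1 - cut o s p : ℝ) : 𝕜) * u (n + 1) p)‖
  set x₁ := pr (c (i n)) F
  set x₂ := pr (c (i (n + 1))) F
  have e : ((-1 : 𝕜)) ^ n * ((m₁ + m₂ : ℝ) : 𝕜) = (x₁ - x₂) -
      ((x₁ - (-1) ^ n * (m₁ : 𝕜)) - (x₂ - (-1) ^ (n + 1) * (m₂ : 𝕜))) := by
    push_cast
    ring
  have h5 : ‖((-1 : 𝕜)) ^ n * ((m₁ + m₂ : ℝ) : 𝕜)‖ = m₁ + m₂ := by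
    rw [norm_mul, norm_pow, norm_neg, norm_one, one_pow, one_mul, RCLike.norm_ofReal,
      abs_of_nonneg (by positivity)]
  rw [e] at h5
  have h6 := norm_sub_le (x₁ - x₂)
    ((x₁ - (-1) ^ n * (m₁ : 𝕜)) - (x₂ - (-1) ^ (n + 1) * (m₂ : 𝕜)))
  have h7 := norm_sub_le (x₁ - (-1) ^ n * (m₁ : 𝕜)) (x₂ - (-1) ^ (n + 1) * (m₂ : 𝕜))
  linarith

/-! ### The core statement -/

theorem core {o : M} {η : ℝ} (hη : 0 < η) (hsep : ∀ p q : M, p ≠ q → η ≤ dist p q)
    {c : ℕ → M →₀ 𝕜} {R : ℝ} (hR : ∀ i, ∀ f : M → 𝕜, IsLip 1 f → f o = 0 → ‖pr (c i) f‖ ≤ R)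
    {L : ℝ} (hL : 0 < L)
    (h : ∀ n : ℕ, ∃ k, n ≤ k ∧ ∃ l, n ≤ l ∧ ∃ f : M → 𝕜, IsLip 1 f ∧ f o = 0 ∧
      L ≤ ‖pr (c k) f - pr (c l) f‖) :
    ∃ F : M → 𝕜, IsLip 10000 F ∧ F o = 0 ∧
      ∀ n : ℕ, ∃ k, n ≤ k ∧ ∃ l, n ≤ l ∧ L ≤ ‖pr (c k) F - pr (c l) F‖ := by
  -- scaling
  have hscale : ∀ (D : ℝ) (K : ℕ) (t : ℝ), 0 ≤ D → K * D ≤ 10000 → L ≤ K * t →
      (∃ F : M → 𝕜, IsLip D F ∧ F o = 0 ∧
        ∀ n : ℕ, ∃ k, n ≤ k ∧ ∃ l, n ≤ l ∧ t ≤ ‖pr (c k) F - pr (c l) F‖) →
      ∃ F : M → 𝕜, IsLip 10000 F ∧ F o = 0 ∧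
        ∀ n : ℕ, ∃ k, n ≤ k ∧ ∃ l, n ≤ l ∧ L ≤ ‖pr (c k) F - pr (c l) F‖ := by
    rintro D K t hD hK hLt ⟨F, hF, hFo, hn⟩
    refine ⟨fun p => (K : 𝕜) * F p, ?_, by simp [hFo], fun n => ?_⟩
    · have := hF.const_mul (a := (K : 𝕜)) (D := K) (by simp) hD
      exact this.mono hK
    · obtain ⟨k, hk, l, hl, hkl⟩ := hn n
      refine ⟨k, hk, l, hl, ?_⟩
      rw [pr_const_mul, pr_const_mul, ← mul_sub, norm_mul, RCLike.norm_natCast]
      exact hLt.trans (mul_le_mul_of_nonneg_left hkl (Nat.cast_nonneg K))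
  by_cases hB : ∃ A : Finset M, o ∈ A ∧ ∃ n₀ : ℕ, ∀ i, n₀ ≤ i → ∀ u : M → 𝕜, IsLip 1 u →
      (∀ p ∈ A, u p = 0) → ‖pr (c i) u‖ ≤ L / 16
  · obtain ⟨A, hoA, n₀, hA⟩ := hB
    have := caseB hη hsep hR hL h hoA hA
    exact hscale 4 1 L (by norm_num) (by norm_num) (by norm_num) this
  · push Not at hB
    by_cases hs : ∃ s : ℝ, 0 < s ∧ ∃ n₀ : ℕ, ∀ i, n₀ ≤ i → ∀ f : M → 𝕜, IsLip 1 f → f o = 0 →
        ‖pr (c i) (fun p => (cut o s p : 𝕜) * f p)‖ ≤ L / 512
    · obtain ⟨s, hs, n₀, hsmall⟩ := hs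
      have := caseA2 (q := L / 16) (τ := L / 512) hη hsep hR (by positivity) (by linarith) hs
        hsmall (fun A hoA n => by
          obtain ⟨i, hi, u, h1, h2, h3⟩ := hB A hoA n
          exact ⟨i, hi, u, h1, h2, h3⟩)
      exact hscale 10 16 (L / 16) (by norm_num) (by norm_num)
        (by push_cast; linarith) this
    · push Not at hs
      have := caseA1 (o := o) (c := c) (τ := L / 512) (fun s hs' n => by
          obtain ⟨i, hi, u, h1, h2, h3⟩ := hs s hs' n
          exact ⟨i, hi, u, h1, h2, h3⟩)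
      exact hscale 18 512 (L / 512) (by norm_num) (by norm_num)
        (by push_cast; linarith) this

end Core

/-! ### Quantities attached to bounded sequences in a normed space -/

section Quantities

variable (𝕜 : Type*) [RCLike 𝕜] {X : Type*} [NormedAddCommGroup X] [NormedSpace 𝕜 X]

/-- `δ(x_n)`: the supremum over the functionals `f` of norm at most one of
`inf_n sup_{k,l ≥ n} |f (x_k) - f (x_l)|`. -/
noncomputable def deltaOsc (x : ℕ → X) : ℝ≥0∞ :=
  ⨆ (f : StrongDual 𝕜 X) (_ : ‖f‖ ≤ 1), ⨅ n : ℕ, ⨆ (k : ℕ) (_ : n ≤ k) (l : ℕ) (_ : n ≤ l),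
    ‖f (x k) - f (x l)‖ₑ

/-- `ca(x_n) = inf_n sup_{k,l ≥ n} ‖x_k - x_l‖`. -/
noncomputable def ca (x : ℕ → X) : ℝ≥0∞ :=
  ⨅ n : ℕ, ⨆ (k : ℕ) (_ : n ≤ k) (l : ℕ) (_ : n ≤ l), ‖x k - x l‖ₑ

/-- The set of weak* cluster points in the bidual of a sequence in `X`. -/
def clust (x : ℕ → X) : Set (StrongDual 𝕜 (StrongDual 𝕜 X)) :=
  {z | MapClusterPt (StrongDual.toWeakDual z) atTop
    (fun k => StrongDual.toWeakDual (NormedSpace.inclusionInDoubleDual 𝕜 X (x k)))}

/-- `wck_X(x_n)`: the supremum over the subsequences `(y_k)` of `(x_n)` of the infimum over the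
weak* cluster points `z` of `(y_k)` in the bidual of the distance of `z` to `X`. -/
noncomputable def wck (x : ℕ → X) : ℝ≥0∞ :=
  ⨆ (φ : ℕ → ℕ) (_ : StrictMono φ), ⨅ z ∈ clust 𝕜 (x ∘ φ),
    infEDist z (Set.range (NormedSpace.inclusionInDoubleDual 𝕜 X))

/-- The `C`-Schur property. -/
def HasSchur (X : Type*) [NormedAddCommGroup X] [NormedSpace 𝕜 X] (C : ℝ≥0) : Prop :=
  ∀ x : ℕ → X, Bornology.IsBounded (Set.range x) → ca x ≤ C * deltaOsc 𝕜 x

/-- `C`-weak sequential completeness. -/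
def IsWsc (X : Type*) [NormedAddCommGroup X] [NormedSpace 𝕜 X] (C : ℝ≥0) : Prop :=
  ∀ x : ℕ → X, Bornology.IsBounded (Set.range x) → wck 𝕜 x ≤ C * deltaOsc 𝕜 x

lemma ca_comp_le (x : ℕ → X) {φ : ℕ → ℕ} (hφ : StrictMono φ) : ca (x ∘ φ) ≤ ca x := by
  refine iInf_mono fun n => ?_
  refine iSup₂_le fun k hk => iSup₂_le fun l hl => ?_
  have h1 : n ≤ φ k := hk.trans (hφ.id_le k)
  have h2 : n ≤ φ l := hl.trans (hφ.id_le l)
  exact (le_iSup₂_of_le (φ k) h1 (le_iSup₂_of_le (f := fun l (_ : n ≤ l) =>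
    ‖x (φ k) - x l‖ₑ) (φ l) h2 le_rfl))

lemma exists_clust {x : ℕ → X} (hx : Bornology.IsBounded (Set.range x)) :
    ∃ z, z ∈ clust 𝕜 x := by
  obtain ⟨R, hR⟩ := hx.exists_norm_le
  have hR' : ∀ k, ‖x k‖ ≤ R := fun k => hR _ (mem_range_self k)
  have hc := WeakDual.isCompact_closedBall (𝕜 := 𝕜) (E := StrongDual 𝕜 X) 0 R
  have hmem : ∀ k, StrongDual.toWeakDual (NormedSpace.inclusionInDoubleDual 𝕜 X (x k)) ∈
      (WeakDual.toStrongDual ⁻¹' closedBall (0 : StrongDual 𝕜 (StrongDual 𝕜 X)) R) := by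
    intro k
    have h1 : ‖NormedSpace.inclusionInDoubleDual 𝕜 X (x k)‖ ≤ R :=
      (NormedSpace.double_dual_bound 𝕜 X (x k)).trans (hR' k)
    have h2 : dist (NormedSpace.inclusionInDoubleDual 𝕜 X (x k))
        (0 : StrongDual 𝕜 (StrongDual 𝕜 X)) ≤ R :=
      (dist_zero_right (NormedSpace.inclusionInDoubleDual 𝕜 X (x k))).trans_le h1
    exact h2
  obtain ⟨z, -, hz⟩ := hc.exists_mapClusterPt (f := atTop)
    (u := fun k => StrongDual.toWeakDual (NormedSpace.inclusionInDoubleDual 𝕜 X (x k)))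
    (tendsto_principal.2 (Eventually.of_forall hmem))
  exact ⟨WeakDual.toStrongDual z, hz⟩

lemma infEDist_clust_le (x : ℕ → X) {z : StrongDual 𝕜 (StrongDual 𝕜 X)} (hz : z ∈ clust 𝕜 x) :
    infEDist z (Set.range (NormedSpace.inclusionInDoubleDual 𝕜 X)) ≤ ca x := by
  refine le_iInf fun n => ?_
  set D : ℝ≥0∞ := ⨆ (k : ℕ) (_ : n ≤ k) (l : ℕ) (_ : n ≤ l), ‖x k - x l‖ₑ with hD
  refine (infEDist_le_edist_of_mem (mem_range_self (x n))).trans ?_
  rcases eq_or_ne D ⊤ with hDt | hDt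
  · rw [hDt]; exact le_top
  have hDk : ∀ k, n ≤ k → ‖x k - x n‖ ≤ D.toReal := by
    intro k hk
    have h1 : ‖x k - x n‖ₑ ≤ D :=
      le_iSup₂_of_le (f := fun k (_ : n ≤ k) => ⨆ (l : ℕ) (_ : n ≤ l), ‖x k - x l‖ₑ) k hk
        (le_iSup₂_of_le (f := fun l (_ : n ≤ l) => ‖x k - x l‖ₑ) n le_rfl le_rfl)
    have h2 := ENNReal.toReal_mono hDt h1
    rwa [toReal_enorm] at h2
  have hnorm : ‖z - NormedSpace.inclusionInDoubleDual 𝕜 X (x n)‖ ≤ D.toReal := by
    refine ContinuousLinearMap.opNorm_le_bound _ ENNReal.toReal_nonneg fun f => ?_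
    have hcl : MapClusterPt (z f) atTop (fun k => f (x k)) := by
      have hcont : Continuous fun w : WeakDual 𝕜 (StrongDual 𝕜 X) => w f :=
        WeakDual.eval_continuous f
      exact hz.continuousAt_comp hcont.continuousAt
    have hclosed : IsClosed {a : 𝕜 | ‖a - f (x n)‖ ≤ D.toReal * ‖f‖} :=
      isClosed_le (by fun_prop) continuous_const
    have hev : ∀ᶠ k in atTop, f (x k) ∈ {a : 𝕜 | ‖a - f (x n)‖ ≤ D.toReal * ‖f‖} := by
      filter_upwards [eventually_ge_atTop n] with k hk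
      rw [← map_sub]
      calc ‖f (x k - x n)‖ ≤ ‖f‖ * ‖x k - x n‖ := f.le_opNorm _
        _ ≤ ‖f‖ * D.toReal := mul_le_mul_of_nonneg_left (hDk k hk) (norm_nonneg _)
        _ = D.toReal * ‖f‖ := mul_comm _ _
    have := isClosed_iff_clusterPt.1 hclosed _ (ClusterPt.mono hcl (le_principal_iff.2 hev))
    simpa using this
  rw [edist_eq_enorm_sub, ← ofReal_norm]
  exact (ENNReal.ofReal_le_ofReal hnorm).trans (ENNReal.ofReal_toReal hDt).le

/-- The `C`-Schur property implies `C`-weak sequential completeness. -/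
lemma HasSchur.isWsc {C : ℝ≥0} (h : HasSchur 𝕜 X C) : IsWsc 𝕜 X C := by
  intro x hx
  refine le_trans ?_ (h x hx)
  refine iSup₂_le fun φ hφ => ?_
  have hb : Bornology.IsBounded (Set.range (x ∘ φ)) := hx.subset (range_comp_subset_range φ x)
  obtain ⟨z, hz⟩ := exists_clust 𝕜 hb
  exact (iInf₂_le z hz).trans ((infEDist_clust_le 𝕜 _ hz).trans (ca_comp_le _ hφ))

end Quantities

/-! ### The Lipschitz space and the Lipschitz-free space -/

section Free

variable (𝕜 : Type*) [RCLike 𝕜] (M : Type*) [MetricSpace M] (o : M)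

/-- The vector space of the Lipschitz functions on `M` vanishing at the base point `o`. -/
def lip0Submodule : Submodule 𝕜 (M → 𝕜) where
  carrier := {f | f o = 0 ∧ ∃ C : ℝ, ∀ p q, ‖f p - f q‖ ≤ C * dist p q}
  zero_mem' := ⟨rfl, 0, fun p q => by simp⟩
  add_mem' := by
    rintro f g ⟨hf, C, hC⟩ ⟨hg, D, hD⟩
    refine ⟨by simp [hf, hg], C + D, fun p q => ?_⟩
    have e : (f + g) p - (f + g) q = (f p - f q) + (g p - g q) := by
      simp only [Pi.add_apply]; ring
    rw [e, add_mul]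
    exact (norm_add_le _ _).trans (add_le_add (hC p q) (hD p q))
  smul_mem' := by
    rintro a f ⟨hf, C, hC⟩
    refine ⟨by simp [hf], ‖a‖ * C, fun p q => ?_⟩
    have e : (a • f) p - (a • f) q = a * (f p - f q) := by
      simp only [Pi.smul_apply, smul_eq_mul]; ring
    rw [e, norm_mul, mul_assoc]
    exact mul_le_mul_of_nonneg_left (hC p q) (norm_nonneg _)

/-- `Lip_0(M)`, the space of the Lipschitz functions on `M` vanishing at `o`. -/
def Lip0 : Type _ := ↥(lip0Submodule 𝕜 M o)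

noncomputable instance : AddCommGroup (Lip0 𝕜 M o) :=
  (lip0Submodule 𝕜 M o).addCommGroup

noncomputable instance : Module 𝕜 (Lip0 𝕜 M o) :=
  (lip0Submodule 𝕜 M o).module

variable {𝕜 M o}

/-- The underlying function of an element of `Lip_0(M)`. -/
def Lip0.fn (f : Lip0 𝕜 M o) : M → 𝕜 := f.1

lemma Lip0.fn_base (f : Lip0 𝕜 M o) : f.fn o = 0 := f.2.1

lemma Lip0.fn_add (f g : Lip0 𝕜 M o) (p : M) : (f + g).fn p = f.fn p + g.fn p := rfl

lemma Lip0.fn_neg (f : Lip0 𝕜 M o) (p : M) : (-f).fn p = -f.fn p := rfl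

lemma Lip0.fn_smul (a : 𝕜) (f : Lip0 𝕜 M o) (p : M) : (a • f).fn p = a * f.fn p := rfl

lemma Lip0.fn_zero (p : M) : (0 : Lip0 𝕜 M o).fn p = 0 := rfl

lemma Lip0.ext {f g : Lip0 𝕜 M o} (h : ∀ p, f.fn p = g.fn p) : f = g :=
  Subtype.ext (funext h)

/-- The set of the nonnegative Lipschitz constants of `f`. -/
def Lip0.consts (f : Lip0 𝕜 M o) : Set ℝ :=
  {C | 0 ≤ C ∧ ∀ p q, ‖f.fn p - f.fn q‖ ≤ C * dist p q}

/-- The Lipschitz norm: the least Lipschitz constant. -/
noncomputable def Lip0.lipNorm (f : Lip0 𝕜 M o) : ℝ := sInf f.consts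

lemma Lip0.consts_nonempty (f : Lip0 𝕜 M o) : f.consts.Nonempty := by
  obtain ⟨C, hC⟩ := f.2.2
  refine ⟨max C 0, le_max_right _ _, fun p q => (hC p q).trans ?_⟩
  exact mul_le_mul_of_nonneg_right (le_max_left _ _) dist_nonneg

lemma Lip0.consts_bddBelow (f : Lip0 𝕜 M o) : BddBelow f.consts := ⟨0, fun _ h => h.1⟩

lemma Lip0.lipNorm_nonneg (f : Lip0 𝕜 M o) : 0 ≤ f.lipNorm :=
  le_csInf f.consts_nonempty fun _ h => h.1

lemma Lip0.lipNorm_le (f : Lip0 𝕜 M o) {C : ℝ} (hC : 0 ≤ C)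
    (h : ∀ p q, ‖f.fn p - f.fn q‖ ≤ C * dist p q) : f.lipNorm ≤ C :=
  csInf_le f.consts_bddBelow ⟨hC, h⟩

lemma Lip0.norm_sub_le (f : Lip0 𝕜 M o) (p q : M) :
    ‖f.fn p - f.fn q‖ ≤ f.lipNorm * dist p q := by
  rcases eq_or_ne p q with rfl | hpq
  · simp
  · have hd : 0 < dist p q := dist_pos.2 hpq
    rw [← div_le_iff₀ hd]
    refine le_csInf f.consts_nonempty fun C hC => ?_
    rw [div_le_iff₀ hd]
    exact hC.2 p q

noncomputable instance : NormedAddCommGroup (Lip0 𝕜 M o) :=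
  AddGroupNorm.toNormedAddCommGroup
    { toFun := Lip0.lipNorm
      map_zero' := le_antisymm ((0 : Lip0 𝕜 M o).lipNorm_le le_rfl
        (fun p q => by simp [Lip0.fn_zero])) (Lip0.lipNorm_nonneg _)
      add_le' := fun f g => (f + g).lipNorm_le (add_nonneg f.lipNorm_nonneg g.lipNorm_nonneg)
        (fun p q => by
          have e : (f + g).fn p - (f + g).fn q = (f.fn p - f.fn q) + (g.fn p - g.fn q) := by
            simp only [Lip0.fn_add]; ring
          rw [e, add_mul]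
          exact (norm_add_le _ _).trans (add_le_add (f.norm_sub_le p q) (g.norm_sub_le p q)))
      neg' := fun f => by
        have h : ∀ f : Lip0 𝕜 M o, (-f).lipNorm ≤ f.lipNorm := fun f =>
          (-f).lipNorm_le f.lipNorm_nonneg (fun p q => by
            have e : (-f).fn p - (-f).fn q = -(f.fn p - f.fn q) := by
              simp only [Lip0.fn_neg]; ring
            rw [e, norm_neg]
            exact f.norm_sub_le p q)
        refine le_antisymm (h f) ?_
        have := h (-f)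
        rwa [neg_neg] at this
      eq_zero_of_map_eq_zero' := fun f hf => by
        refine Lip0.ext fun p => ?_
        have h1 := f.norm_sub_le p o
        have h2 : f.lipNorm = 0 := hf
        rw [h2, zero_mul, f.fn_base, sub_zero] at h1
        rw [Lip0.fn_zero]
        exact norm_le_zero_iff.1 h1 }

lemma Lip0.norm_def (f : Lip0 𝕜 M o) : ‖f‖ = f.lipNorm := rfl

noncomputable instance : NormedSpace 𝕜 (Lip0 𝕜 M o) where
  norm_smul_le a f := by
    refine (a • f).lipNorm_le (mul_nonneg (norm_nonneg _) f.lipNorm_nonneg) (fun p q => ?_)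
    have e : (a • f).fn p - (a • f).fn q = a * (f.fn p - f.fn q) := by
      simp only [Lip0.fn_smul]; ring
    rw [e, norm_mul, mul_assoc]
    exact mul_le_mul_of_nonneg_left (f.norm_sub_le p q) (norm_nonneg _)

/-- The evaluation functional `δ(p)` on `Lip_0(M)`. -/
noncomputable def evalAt (p : M) : StrongDual 𝕜 (Lip0 𝕜 M o) :=
  LinearMap.mkContinuous
    { toFun := fun f => f.fn p
      map_add' := fun f g => Lip0.fn_add f g p
      map_smul' := fun a f => Lip0.fn_smul a f p } (dist p o) (fun f => by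
        have := f.norm_sub_le p o
        rw [f.fn_base, sub_zero] at this
        rw [Lip0.norm_def, mul_comm]
        exact this)

lemma evalAt_apply (p : M) (f : Lip0 𝕜 M o) : evalAt p f = f.fn p := rfl

variable (𝕜 M o)

/-- The Lipschitz-free space `F(M)`: the closed linear span of the evaluation functionals in the
dual of `Lip_0(M)`. -/
noncomputable def freeSubmodule : Submodule 𝕜 (StrongDual 𝕜 (Lip0 𝕜 M o)) :=
  (Submodule.span 𝕜 (Set.range (evalAt (𝕜 := 𝕜) (o := o)))).topologicalClosure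

/-- The Lipschitz-free space `F(M)` as a normed space, with the norm of the dual of `Lip_0(M)`. -/
def FreeSpace : Type _ := ↥(freeSubmodule 𝕜 M o)

noncomputable instance : NormedAddCommGroup (FreeSpace 𝕜 M o) :=
  (freeSubmodule 𝕜 M o).normedAddCommGroup

noncomputable instance : NormedSpace 𝕜 (FreeSpace 𝕜 M o) :=
  (freeSubmodule 𝕜 M o).normedSpace

variable {𝕜 M o}

/-- The functional on `Lip_0(M)` underlying an element of `F(M)`. -/
def FreeSpace.val (x : FreeSpace 𝕜 M o) : StrongDual 𝕜 (Lip0 𝕜 M o) := Subtype.val x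

lemma FreeSpace.norm_val (x : FreeSpace 𝕜 M o) : ‖x.val‖ = ‖x‖ := rfl

lemma FreeSpace.val_add (x y : FreeSpace 𝕜 M o) : (x + y).val = x.val + y.val := rfl

lemma FreeSpace.val_sub (x y : FreeSpace 𝕜 M o) : (x - y).val = x.val - y.val := rfl

lemma FreeSpace.val_smul (a : 𝕜) (x : FreeSpace 𝕜 M o) : (a • x).val = a • x.val := rfl

end Free

/-! ### The theorem -/

section Main

variable {𝕜 : Type*} [RCLike 𝕜] {M : Type*} [MetricSpace M] {o : M}

/-- A Lipschitz function vanishing at `o`, as an element of `Lip_0(M)`. -/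
def Lip0.mk {C : ℝ} (f : M → 𝕜) (hf : IsLip C f) (h0 : f o = 0) : Lip0 𝕜 M o :=
  ⟨f, h0, C, hf⟩

lemma Lip0.norm_mk_le {C : ℝ} (hC : 0 ≤ C) (f : M → 𝕜) (hf : IsLip C f) (h0 : f o = 0) :
    ‖Lip0.mk f hf h0‖ ≤ C := Lip0.lipNorm_le _ hC hf

lemma Lip0.isLip (f : Lip0 𝕜 M o) {C : ℝ} (hC : ‖f‖ ≤ C) : IsLip C f.fn :=
  fun p q => (f.norm_sub_le p q).trans (mul_le_mul_of_nonneg_right hC dist_nonneg)

lemma linComb_apply (c : M →₀ 𝕜) (f : Lip0 𝕜 M o) :
    (Finsupp.linearCombination 𝕜 (evalAt (𝕜 := 𝕜) (o := o)) c) f = pr c f.fn := by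
  rw [Finsupp.linearCombination_apply, Finsupp.sum, pr, _root_.sum_apply]
  refine Finset.sum_congr rfl fun p _ => ?_
  rw [_root_.smul_apply, evalAt_apply, smul_eq_mul]

/-- Evaluation at an element of `Lip_0(M)`, as a functional on the free space. -/
noncomputable def evalFn (f : Lip0 𝕜 M o) : StrongDual 𝕜 (FreeSpace 𝕜 M o) :=
  LinearMap.mkContinuous
    { toFun := fun x => x.val f
      map_add' := fun x y => by rw [FreeSpace.val_add]; rfl
      map_smul' := fun a x => by rw [FreeSpace.val_smul]; rfl } ‖f‖ (fun x => by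
        rw [mul_comm, ← FreeSpace.norm_val]
        exact x.val.le_opNorm f)

lemma evalFn_apply (f : Lip0 𝕜 M o) (x : FreeSpace 𝕜 M o) : evalFn f x = x.val f := rfl

lemma norm_evalFn_le (f : Lip0 𝕜 M o) : ‖evalFn f‖ ≤ ‖f‖ :=
  LinearMap.mkContinuous_norm_le _ (norm_nonneg _) _

theorem hasSchur (hM : ∃ η : ℝ, 0 < η ∧ ∀ p q : M, p ≠ q → η ≤ dist p q) :
    HasSchur 𝕜 (FreeSpace 𝕜 M o) 20000 := by
  obtain ⟨η, hη, hsep⟩ := hM
  intro x hx
  refine le_of_forall_lt fun a ha => ?_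
  obtain ⟨L, hLa, hL⟩ := ENNReal.lt_iff_exists_nnreal_btwn.1 ha
  refine hLa.trans_le ?_
  rcases eq_zero_or_pos L with rfl | hL0
  · simp
  have hL0' : (0 : ℝ) < L := hL0
  obtain ⟨R, hR⟩ := hx.exists_norm_le
  have hR' : ∀ k, ‖(x k).val‖ ≤ R := fun k => hR _ (mem_range_self k)
  let ε : ℝ := L / 40004
  have hε : 0 < ε := by positivity
  have hεL : 40004 * ε = L := by
    simp only [ε]; field_simp
  -- approximation by finitely supported elements
  have happ : ∀ n, ∃ c : M →₀ 𝕜, ‖(x n).val -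
      Finsupp.linearCombination 𝕜 (evalAt (𝕜 := 𝕜) (o := o)) c‖ < ε := by
    intro n
    have h1 : (x n).val ∈
        closure (Submodule.span 𝕜 (Set.range (evalAt (𝕜 := 𝕜) (o := o))) : Set _) := (x n).2
    obtain ⟨y, hy, hxy⟩ := Metric.mem_closure_iff.1 h1 ε hε
    obtain ⟨c, rfl⟩ := (Finsupp.mem_span_range_iff_exists_finsupp).1 hy
    refine ⟨c, ?_⟩
    rw [dist_eq_norm] at hxy
    rw [Finsupp.linearCombination_apply]
    exact hxy
  choose c hc using happ
  set ι := Finsupp.linearCombination 𝕜 (evalAt (𝕜 := 𝕜) (o := o)) with hι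
  have hcR : ∀ i, ∀ f : M → 𝕜, IsLip 1 f → f o = 0 → ‖pr (c i) f‖ ≤ R + ε := by
    intro i f hf h0
    have h1 : pr (c i) f = ι (c i) (Lip0.mk f hf h0) := by
      rw [hι, linComb_apply]
      rfl
    have h2 : ‖ι (c i)‖ ≤ R + ε := by
      have h3 : ι (c i) = (x i).val - ((x i).val - ι (c i)) := by abel
      rw [h3]
      exact (norm_sub_le _ _).trans (add_le_add (hR' i) (hc i).le)
    rw [h1]
    calc ‖ι (c i) (Lip0.mk f hf h0)‖ ≤ ‖ι (c i)‖ * ‖Lip0.mk f hf h0‖ :=
          ContinuousLinearMap.le_opNorm _ _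
      _ ≤ ‖ι (c i)‖ * 1 :=
          mul_le_mul_of_nonneg_left (Lip0.norm_mk_le zero_le_one _ _ _) (norm_nonneg _)
      _ ≤ R + ε := by rw [mul_one]; exact h2
  have hosc : ∀ n : ℕ, ∃ k, n ≤ k ∧ ∃ l, n ≤ l ∧ ∃ f : M → 𝕜, IsLip 1 f ∧ f o = 0 ∧
      L - 2 * ε ≤ ‖pr (c k) f - pr (c l) f‖ := by
    intro n
    have h1 : (L : ℝ≥0∞) < ⨆ (k : ℕ) (_ : n ≤ k) (l : ℕ) (_ : n ≤ l), ‖x k - x l‖ₑ :=
      hL.trans_le (iInf_le _ n)
    simp only [lt_iSup_iff] at h1
    obtain ⟨k, hk, l, hl, hkl⟩ := h1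
    refine ⟨k, hk, l, hl, ?_⟩
    have h2 : (L : ℝ) < ‖x k - x l‖ := by
      rw [enorm_eq_nnnorm] at hkl
      exact_mod_cast hkl
    have h3 : (L : ℝ) - 2 * ε < ‖ι (c k) - ι (c l)‖ := by
      have h4 : (x k).val - (x l).val =
          (ι (c k) - ι (c l)) + (((x k).val - ι (c k)) - ((x l).val - ι (c l))) := by
        abel
      rw [← FreeSpace.norm_val, FreeSpace.val_sub, h4] at h2
      have h6 := norm_add_le (ι (c k) - ι (c l)) (((x k).val - ι (c k)) - ((x l).val - ι (c l)))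
      have h7 := norm_sub_le ((x k).val - ι (c k)) ((x l).val - ι (c l))
      linarith [hc k, hc l]
    obtain ⟨f, hf1, hf2⟩ := ContinuousLinearMap.exists_lt_apply_of_lt_opNorm _ h3
    refine ⟨f.fn, f.isLip hf1.le, f.fn_base, ?_⟩
    rw [_root_.sub_apply, hι, linComb_apply, linComb_apply] at hf2
    exact hf2.le
  obtain ⟨F, hF, hFo, hFkl⟩ := core hη hsep hcR (L := L - 2 * ε) (by linarith) hosc
  have hF1 : IsLip 1 (fun p => ((1 / 10000 : ℝ) : 𝕜) * F p) := by
    have := hF.const_mul (a := ((1 / 10000 : ℝ) : 𝕜)) (D := 1 / 10000)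
      (by rw [RCLike.norm_ofReal, abs_of_pos (by positivity)]) (by positivity)
    exact this.mono (by norm_num)
  let G : Lip0 𝕜 M o := Lip0.mk (fun p => ((1 / 10000 : ℝ) : 𝕜) * F p) hF1 (by simp [hFo])
  have hG1 : ‖G‖ ≤ 1 := Lip0.norm_mk_le zero_le_one _ _ _
  have hGn : ∀ n, ‖evalFn G (x n) - pr (c n) G.fn‖ ≤ ε := by
    intro n
    have h1 : evalFn G (x n) - pr (c n) G.fn = ((x n).val - ι (c n)) G := by
      rw [_root_.sub_apply, hι, linComb_apply, evalFn_apply]
    rw [h1]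
    calc ‖((x n).val - ι (c n)) G‖
        ≤ ‖(x n).val - ι (c n)‖ * ‖G‖ :=
          ContinuousLinearMap.le_opNorm _ _
      _ ≤ ε * 1 := mul_le_mul (hc n).le hG1 (norm_nonneg _) hε.le
      _ = ε := mul_one _
  have hδ : ((L / 20000 : ℝ≥0) : ℝ≥0∞) ≤ deltaOsc 𝕜 x := by
    refine le_iSup₂_of_le (f := fun (f : StrongDual 𝕜 (FreeSpace 𝕜 M o)) (_ : ‖f‖ ≤ 1) =>
      ⨅ n : ℕ, ⨆ (k : ℕ) (_ : n ≤ k) (l : ℕ) (_ : n ≤ l), ‖f (x k) - f (x l)‖ₑ)
      (evalFn G) ((norm_evalFn_le G).trans hG1) ?_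
    refine le_iInf fun n => ?_
    obtain ⟨k, hk, l, hl, hkl⟩ := hFkl n
    refine le_iSup₂_of_le (f := fun (k : ℕ) (_ : n ≤ k) => ⨆ (l : ℕ) (_ : n ≤ l),
      ‖evalFn G (x k) - evalFn G (x l)‖ₑ) k hk ?_
    refine le_iSup₂_of_le (f := fun (l : ℕ) (_ : n ≤ l) =>
      ‖evalFn G (x k) - evalFn G (x l)‖ₑ) l hl ?_
    rw [enorm_eq_nnnorm]
    norm_cast
    rw [← NNReal.coe_le_coe, coe_nnnorm]
    push_cast
    have e1 : ∀ i, pr (c i) G.fn = ((1 / 10000 : ℝ) : 𝕜) * pr (c i) F := fun i =>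
      pr_const_mul _ _ _
    have h1 := hGn k
    have h2 := hGn l
    have h3 : (L - 2 * ε) / 10000 ≤ ‖pr (c k) G.fn - pr (c l) G.fn‖ := by
      rw [e1, e1, ← mul_sub, norm_mul, RCLike.norm_ofReal, abs_of_pos (by positivity)]
      linarith
    have e2 : pr (c k) G.fn - pr (c l) G.fn = (evalFn G (x k) - evalFn G (x l)) -
        ((evalFn G (x k) - pr (c k) G.fn) - (evalFn G (x l) - pr (c l) G.fn)) := by ring
    rw [e2] at h3
    have h4 := norm_sub_le (evalFn G (x k) - evalFn G (x l))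
      ((evalFn G (x k) - pr (c k) G.fn) - (evalFn G (x l) - pr (c l) G.fn))
    have h5 := norm_sub_le (evalFn G (x k) - pr (c k) G.fn) (evalFn G (x l) - pr (c l) G.fn)
    linarith
  calc (L : ℝ≥0∞) = ((20000 : ℝ≥0) : ℝ≥0∞) * ((L / 20000 : ℝ≥0) : ℝ≥0∞) := by
        rw [← ENNReal.coe_mul]
        congr 1
        field_simp
    _ ≤ _ := mul_le_mul_right hδ _

/-- **Main theorem.** There is a universal constant `C` such that for every uniformly separated
metric space `M` (with real or complex scalars, and any base point `o`) the Lipschitz-free space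
`F(M)` is `C`-weakly sequentially complete; by `hasSchur` it even has the `C`-Schur property. -/
theorem result : ∃ C : ℝ≥0, ∀ (𝕜 : Type u) [RCLike 𝕜] (M : Type v) [MetricSpace M] (o : M),
    (∃ η : ℝ, 0 < η ∧ ∀ p q : M, p ≠ q → η ≤ dist p q) → IsWsc 𝕜 (FreeSpace 𝕜 M o) C :=
  ⟨20000, fun _ _ _ _ _ hM => (hasSchur hM).isWsc⟩

end Main

end Pool.Agent.Results.MP_d136d9_an.UniversalWsc
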